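import Mathlib

/-! Counting the starting values of Wiggin's map in a class closed under preimages.
(Adapted from the starting file `Results/MP_5317dd_nt/PowerCount.lean`, which treats the class of
the values which descend below `D`.) -/

set_option autoImplicit false

namespace Pool.Agent.Y825.WG

/-- Wiggin's map `F_D`. -/
def F (D x : ℕ) : ℕ :=
  if x % D = 0 then x / D
  else if x % D = D - 1 then (D + 1) * x + 1
  else (D + 1) * x - x % D

/-- `n` descends below `D`. -/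
def Desc (D n : ℕ) : Prop := ∃ k : ℕ, (F D)^[k] n < D

/-- `R` contains all preimages of its members. -/
def Back (D : ℕ) (R : ℕ → Prop) : Prop := ∀ x, R (F D x) → R x

lemma F_mul {D q : ℕ} (hD : 0 < D) : F D (D * q) = q := by
  unfold F
  rw [if_pos (Nat.mul_mod_right D q), Nat.mul_div_cancel_left _ hD]

lemma mod_aux {D q j : ℕ} (hj : j < D) : (D * q + j) % D = j := by
  rw [Nat.mul_add_mod, Nat.mod_eq_of_lt hj]

lemma desc_mid {D : ℕ} {R : ℕ → Prop} (hR : Back D R) {q j : ℕ} (h1 : 1 ≤ j) (h2 : j + 2 ≤ D)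
    (h : R (D*q + j + q)) : R (D * q + j) := by
  apply hR
  have hm := mod_aux (q := q) (show j < D by omega)
  have hF : F D (D*q+j) = D * (D*q+j+q) := by
    unfold F
    rw [hm, if_neg (by omega), if_neg (by omega)]
    have : (D+1) * (D*q+j) = D * (D*q+j+q) + j := by ring
    omega
  rw [hF]
  apply hR
  rw [F_mul (by omega)]
  exact h

lemma desc_pow {D : ℕ} {R : ℕ → Prop} (hR : Back D R) {s : ℕ} (hD : 0 < D) (h : R s) :
    ∀ j : ℕ, R (D^j * s) := by
  intro j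
  induction j with
  | zero => simpa using h
  | succ j ih =>
    apply hR
    have : D^(j+1) * s = D * (D^j * s) := by ring
    rw [this, F_mul hD]
    exact ih

/-- In the class, not divisible by `D`, not divisible by `D + 1`. -/
def Good (D : ℕ) (R : ℕ → Prop) (z : ℕ) : Prop := R z ∧ ¬ (D+1) ∣ z ∧ ¬ D ∣ z

lemma cop (D j s : ℕ) (hs : ¬ (D+1) ∣ s) : ¬ (D+1) ∣ D^j * s := by
  intro h
  have hc : Nat.Coprime (D+1) (D^j) := by
    apply Nat.Coprime.pow_right
    simp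
  exact hs (hc.dvd_of_dvd_mul_left h)

/-- The candidate over `n = (D+1) A + B`. -/
lemma cand {D : ℕ} {R : ℕ → Prop} (hR : Back D R) {n A B : ℕ} (hD : 4 ≤ D) (hn : n = (D+1)*A + B) (hB1 : 1 ≤ B) (hB2 : B + 2 ≤ D)
    (hdesc : R n) : R (D*A+B) ∧ ¬ D ∣ (D*A+B) ∧ (D*A+B) + (D*A+B+1)/D = n := by
  refine ⟨?_, ?_, ?_⟩
  · apply desc_mid hR hB1 hB2
    have : D*A + B + A = n := by rw [hn]; ring
    rw [this]; exact hdesc
  · intro h
    have := Nat.mod_eq_zero_of_dvd h
    rw [mod_aux (by omega)] at this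
    omega
  · have h1 : (D*A+B+1)/D = A := by
      rw [Nat.add_assoc, Nat.mul_add_div (by omega), Nat.div_eq_of_lt (by omega)]; rfl
    rw [h1, hn]; ring

lemma three_cand {D : ℕ} {R : ℕ → Prop} (hR : Back D R) {n A B : ℕ} (hD : 4 ≤ D) (hn : n = (D+1)*A + B) (hB1 : 1 ≤ B)
    (hB2 : B + 2 ≤ D) (hdesc : R n) (hdesc1 : R (D * n))
    (hdesc2 : R (D^2 * n)) :
    (∃ z, Good D R z ∧ z + (z + 1) / D = n) ∨ (∃ z, Good D R z ∧ z + (z + 1) / D = D * n) ∨
      (∃ z, Good D R z ∧ z + (z + 1) / D = D^2 * n) := by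
  have h1 := cand hR hD hn hB1 hB2 hdesc
  obtain ⟨d, rfl⟩ : ∃ d, D = d + 1 := ⟨D-1, by omega⟩
  obtain ⟨b, rfl⟩ : ∃ b, B = b + 1 := ⟨B-1, by omega⟩
  have hn2 : (d+1)^2 * n = ((d+1)+1) * ((d+1)^2 * A + d * (b+1)) + (b+1) := by
    rw [hn]; ring
  have h2 := cand hR hD hn2 hB1 hB2 hdesc2
  by_cases hz : ((d+1)+1) ∣ ((d+1)*A+(b+1))
  · by_cases hz2 : ((d+1)+1) ∣ ((d+1)*((d+1)^2*A + d*(b+1)) + (b+1))
    · -- then `2 B = D + 1`
      have e : (d+1)^2 * ((d+1)*A+(b+1)) =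
          ((d+1)*((d+1)^2*A + d*(b+1)) + (b+1)) + d * (b+1) := by ring
      have h3 : ((d+1)+1) ∣ d * (b+1) := by
        have h4 : ((d+1)+1) ∣ ((d+1)*((d+1)^2*A + d*(b+1)) + (b+1)) + d * (b+1) := by
          rw [← e]; exact hz.mul_left _
        exact (Nat.dvd_add_right hz2).mp h4
      have h4 : ((d+1)+1) ∣ 2 * (b+1) := by
        have h5 : ((d+1)+1) ∣ d * (b+1) + 2 * (b+1) := by
          have : d * (b+1) + 2 * (b+1) = ((d+1)+1) * (b+1) := by ring
          rw [this]; exact Nat.dvd_mul_right _ _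
        exact (Nat.dvd_add_right h3).mp h5
      have h5 : 2 * (b+1) = (d+1)+1 := by
        obtain ⟨t, ht⟩ := h4
        have ht1 : t = 1 := by
          rcases Nat.lt_or_ge t 1 with h | h
          · have : t = 0 := by omega
            subst this; omega
          · rcases Nat.lt_or_ge t 2 with h' | h'
            · omega
            · exfalso
              have : ((d+1)+1) * 2 ≤ ((d+1)+1) * t := Nat.mul_le_mul_left _ h'
              omega
        subst ht1; omega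
      have hd : d = 2 * b := by omega
      subst hd
      have hn1 : (2*b+1) * n = ((2*b+1)+1) * ((2*b+1) * A + b) + (b+1) := by
        rw [hn]; ring
      have h6 := cand hR hD hn1 hB1 hB2 hdesc1
      right; left
      refine ⟨_, ⟨h6.1, ?_, h6.2.1⟩, h6.2.2⟩
      intro hz3
      have e2 : (2*b+1) * ((2*b+1)*A+(b+1)) = ((2*b+1)*((2*b+1)*A+b) + (b+1)) + b := by ring
      have h7 : ((2*b+1)+1) ∣ b := by
        have h8 : ((2*b+1)+1) ∣ ((2*b+1)*((2*b+1)*A+b) + (b+1)) + b := by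
          rw [← e2]; exact hz.mul_left _
        exact (Nat.dvd_add_right hz3).mp h8
      have := Nat.le_of_dvd (by omega) h7
      omega
    · right; right
      exact ⟨_, ⟨h2.1, hz2, h2.2.1⟩, h2.2.2⟩
  · left
    exact ⟨_, ⟨h1.1, hz, h1.2.1⟩, h1.2.2⟩

lemma child {D : ℕ} {R : ℕ → Prop} (hR : Back D R) {s : ℕ} (hD : 4 ≤ D) (hs : Good D R s) (i : ℕ) :
    ∃ z, Good D R z ∧ ∃ j, 4*i+1 ≤ j ∧ j ≤ 4*i+4 ∧ z + (z + 1) / D = D^j * s := by
  -- a parity of the exponent for which the remainder lies in `[1, D-2]`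
  have hpar : ∃ j0, 4*i+1 ≤ j0 ∧ j0 ≤ 4*i+2 ∧ 1 ≤ (D^j0*s) % (D+1) ∧
      (D^j0*s) % (D+1) + 2 ≤ D := by
    have h1 := cop D (4*i+1) s hs.2.1
    have h2 := cop D (4*i+2) s hs.2.1
    set n := D^(4*i+1)*s with hn
    have hn' : D^(4*i+2)*s = D * n := by rw [hn]; ring
    have hB : n % (D+1) < D+1 := Nat.mod_lt _ (by omega)
    have hB0 : n % (D+1) ≠ 0 := fun h => h1 (Nat.dvd_of_mod_eq_zero h)
    by_cases hc : n % (D+1) + 2 ≤ D
    · exact ⟨4*i+1, le_rfl, by omega, by rw [← hn]; omega, by rw [← hn]; exact hc⟩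
    · refine ⟨4*i+2, by omega, le_rfl, ?_⟩
      have hmod : (D*n) % (D+1) = D + 1 - n % (D+1) := by
        have h3 : D * n = (D+1) * (D * (n/(D+1)) + (n % (D+1) - 1)) + (D + 1 - n % (D+1)) := by
          have h4 := Nat.div_add_mod n (D+1)
          obtain ⟨b, hb⟩ : ∃ b, n % (D+1) = b + 1 := ⟨n % (D+1) - 1, by omega⟩
          rw [hb] at h4 ⊢
          have h5 : D + 1 - (b+1) = D - b := by omega
          rw [h5]
          have h6 : b ≤ D := by omega
          obtain ⟨c, rfl⟩ : ∃ c, D = b + c := ⟨D - b, by omega⟩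
          have h7 : b + c - b = c := by omega
          rw [h7]
          simp only [Nat.add_sub_cancel]
          calc (b+c) * n = (b+c) * ((b+c+1) * (n/(b+c+1)) + (b+1)) := by rw [h4]
            _ = _ := by ring
        rw [h3, Nat.mul_add_mod]
        exact Nat.mod_eq_of_lt (by omega)
      rw [hn', hmod]
      omega
  obtain ⟨j0, ha, hb, hc, hd⟩ := hpar
  have hn := (Nat.div_add_mod (D^j0*s) (D+1)).symm
  have hp : D^2 * (D^j0*s) = D^(j0+2)*s := by ring
  have hp1 : D * (D^j0*s) = D^(j0+1)*s := by ring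
  rcases three_cand hR hD hn hc hd (desc_pow hR (by omega) hs.1 j0)
    (by rw [hp1]; exact desc_pow hR (by omega) hs.1 (j0+1))
    (by rw [hp]; exact desc_pow hR (by omega) hs.1 (j0+2)) with
    ⟨z, hz, h⟩ | ⟨z, hz, h⟩ | ⟨z, hz, h⟩
  · exact ⟨z, hz, j0, ha, by omega, h⟩
  · exact ⟨z, hz, j0+1, by omega, by omega, by rw [h, hp1]⟩
  · exact ⟨z, hz, j0+2, by omega, by omega, by rw [h, hp]⟩

lemma uniq {D s s' : ℕ} (hD : 0 < D) (hs : ¬ D ∣ s) : ∀ j j' : ℕ, j ≤ j' →
    D^j * s = D^j' * s' → j = j' ∧ s = s' := by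
  intro j j' hj h
  obtain ⟨t, rfl⟩ := Nat.exists_eq_add_of_le hj
  rw [pow_add, mul_assoc] at h
  have h1 : s = D^t * s' := Nat.eq_of_mul_eq_mul_left (pow_pos hD j) h
  rcases Nat.eq_zero_or_pos t with h0 | h0
  · subst h0; exact ⟨by simp, by simpa using h1⟩
  · exfalso
    apply hs
    rw [h1]
    exact (dvd_pow_self D (by omega)).mul_right _

lemma uniq' {D s s' : ℕ} (hD : 0 < D) (hs : ¬ D ∣ s) (hs' : ¬ D ∣ s') (j j' : ℕ)
    (h : D^j * s = D^j' * s') : j = j' ∧ s = s' := by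
  rcases Nat.le_total j j' with hj | hj
  · exact uniq hD hs j j' hj h
  · have := uniq hD hs' j' j hj h.symm
    exact ⟨this.1.symm, this.2.symm⟩

/-- `G` is a class of numbers prime to `D` in the sense of `child`, all in `R`, which contains
`c`. -/
def Closed (D : ℕ) (R : ℕ → Prop) (c : ℕ) (G : ℕ → Prop) : Prop :=
  G c ∧ (∀ s, G s → R s ∧ ¬ D ∣ s) ∧
  ∀ s, G s → ∀ i : ℕ, ∃ z, G z ∧ ∃ j, 4*i+1 ≤ j ∧ j ≤ 4*i+4 ∧ z + (z + 1) / D = D^j * s

open Classical in
noncomputable def P (D c : ℕ) (G : ℕ → Prop) (n : ℕ) : Finset ℕ :=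
  (Finset.range (D^(4*n) * c+1)).filter G

variable {R : ℕ → Prop} {c : ℕ}

lemma P_zero (D : ℕ) (G : ℕ → Prop) (hG : Closed D R c G) : 1 ≤ (P D c G 0).card := by
  classical
  rw [Nat.one_le_iff_ne_zero, Finset.card_ne_zero]
  refine ⟨c, ?_⟩
  unfold P
  rw [Finset.mem_filter, Finset.mem_range]
  exact ⟨by simp, hG.1⟩

lemma P_rec (D n : ℕ) (G : ℕ → Prop) (hG : Closed D R c G) (hD : 3 ≤ D) :
    ∑ m ∈ Finset.range (n+1), (P D c G m).card ≤ (P D c G (n+1)).card := by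
  classical
  rw [← Finset.card_sigma]
  apply Finset.card_le_card_of_forall_subsingleton
    (fun (a : Σ _ : ℕ, ℕ) (z : ℕ) => ∃ j, 4*(n - a.1)+1 ≤ j ∧ j ≤ 4*(n-a.1)+4 ∧
      z + (z + 1) / D = D^j * a.2)
  · rintro ⟨m, s⟩ ha
    rw [Finset.mem_sigma, Finset.mem_range] at ha
    obtain ⟨hm, hs⟩ := ha
    simp only at hm hs
    unfold P at hs
    rw [Finset.mem_filter, Finset.mem_range] at hs
    obtain ⟨z, hz, j, h1, h2, h3⟩ := hG.2.2 s hs.2 (n-m)
    refine ⟨z, ?_, j, h1, h2, h3⟩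
    unfold P
    rw [Finset.mem_filter, Finset.mem_range]
    refine ⟨?_, hz⟩
    have h4 : z ≤ D^j * s := by rw [← h3]; exact Nat.le_add_right _ _
    have h5 : D^j * s ≤ D^(4*(n-m)+4) * (D^(4*m) * c) :=
      Nat.mul_le_mul (Nat.pow_le_pow_right (by omega) h2) (by omega)
    rw [← mul_assoc, ← pow_add] at h5
    have h6 : 4*(n-m)+4+4*m = 4*(n+1) := by omega
    rw [h6] at h5
    omega
  · rintro z hz ⟨m, s⟩ ha ⟨m', s'⟩ ha'
    simp only [Set.mem_ofPred_eq, Finset.mem_sigma, Finset.mem_range] at ha ha'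
    obtain ⟨⟨hm, hs⟩, j, h1, h2, h3⟩ := ha
    obtain ⟨⟨hm', hs'⟩, j', h1', h2', h3'⟩ := ha'
    unfold P at hs hs'
    rw [Finset.mem_filter] at hs hs'
    have h := uniq' (show 0 < D by omega) (hG.2.1 _ hs.2).2 (hG.2.1 _ hs'.2).2 j j'
      (h3.symm.trans h3')
    obtain ⟨hj, rfl⟩ := h
    have hmm : m = m' := by omega
    subst hmm
    rfl

lemma P_lower (D : ℕ) (G : ℕ → Prop) (hG : Closed D R c G) (hD : 3 ≤ D) :
    ∀ n, 2^n ≤ 2 * (P D c G n).card := by
  have key : ∀ n, 2^n ≤ ∑ m ∈ Finset.range (n+1), (P D c G m).card := by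
    intro n
    induction n with
    | zero => simpa using P_zero D G hG
    | succ n ih =>
      rw [Finset.sum_range_succ]
      have := P_rec D n G hG hD
      rw [pow_succ]
      omega
  intro n
  cases n with
  | zero => have := P_zero D G hG; simp; omega
  | succ n =>
    have h1 := key n
    have h2 := P_rec D n G hG hD
    rw [pow_succ]
    omega

/-- A class closed under preimages which contains a number prime to `D` and `D + 1` in the weak
sense contains at least `c' N ^ (log 2 / (4 log D))` numbers up to `N`. -/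
theorem count {D : ℕ} (hD : 4 ≤ D) {R : ℕ → Prop} (hR : Back D R) {c : ℕ} (hc : Good D R c)
    (hc1 : 1 ≤ c) : ∃ a : ℝ, 0 < a ∧ ∀ N : ℕ, 1 ≤ N →
      a * (N:ℝ) ^ (Real.log 2 / (4 * Real.log D)) ≤ ({n : ℕ | 1 ≤ n ∧ n ≤ c * N ∧ R n}.ncard : ℝ) := by
  classical
  have hG : Closed D R c (Good D R) :=
    ⟨hc, fun s hs => ⟨hs.1, hs.2.2⟩, fun s hs i => child hR hD hs i⟩
  refine ⟨1 / 4, by norm_num, fun N hN => ?_⟩
  set S : Set ℕ := {n : ℕ | 1 ≤ n ∧ n ≤ c * N ∧ R n} with hS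
  have hSfin : S.Finite := (Set.finite_Icc 1 (c * N)).subset (fun n hn => ⟨hn.1, hn.2.1⟩)
  set n := Nat.log (D^4) N with hn
  have hD4 : 1 < D^4 := Nat.one_lt_pow (by norm_num) (by omega)
  have hlow : (D^4)^n ≤ N := Nat.pow_log_le_self _ (by omega)
  have hup : N < (D^4)^(n+1) := Nat.lt_pow_succ_log_self hD4 N
  have hsub : ((P D c (Good D R) n : Finset ℕ) : Set ℕ) ⊆ S := by
    intro z hz
    rw [Finset.mem_coe] at hz
    unfold P at hz
    rw [Finset.mem_filter, Finset.mem_range] at hz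
    have hle : z ≤ c * N := by
      have h0 : D^(4*n) = (D^4)^n := by rw [pow_mul]
      have h1 : D^(4*n) * c ≤ c * N := by
        rw [h0, mul_comm]
        exact Nat.mul_le_mul_left _ hlow
      omega
    refine ⟨?_, hle, hz.2.1⟩
    by_contra h0
    have : z = 0 := by omega
    apply hz.2.2.2
    rw [this]; exact dvd_zero D
  have hcard := Set.ncard_le_ncard hsub hSfin
  rw [Set.ncard_coe_finset] at hcard
  have h1 := P_lower D (Good D R) hG (by omega) n
  have h2 : 2^(n+1) ≤ 4 * S.ncard := by rw [pow_succ]; omega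
  have h2R : (2:ℝ)^(n+1) ≤ 4 * (S.ncard : ℝ) := by exact_mod_cast h2
  have hDR : (1:ℝ) < (D:ℝ) := by exact_mod_cast (by omega : 1 < D)
  have hlogD : 0 < Real.log D := Real.log_pos hDR
  have hlog2 : 0 < Real.log 2 := Real.log_pos (by norm_num)
  have h3 : (N:ℝ) ^ (Real.log 2 / (4 * Real.log D)) ≤ (2:ℝ)^(n+1) := by
    have hNR : (N:ℝ) ≤ ((D:ℝ)^4)^(n+1) := by exact_mod_cast hup.le
    calc (N:ℝ) ^ (Real.log 2 / (4 * Real.log D))
        ≤ (((D:ℝ)^4)^(n+1)) ^ (Real.log 2 / (4 * Real.log D)) :=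
          Real.rpow_le_rpow (by positivity) hNR (by positivity)
      _ = (2:ℝ)^(n+1) := by
          rw [← Real.log_injOn_pos.eq_iff (Set.mem_Ioi.mpr (by positivity))
            (Set.mem_Ioi.mpr (by positivity)), Real.log_rpow (by positivity), Real.log_pow,
            Real.log_pow, Real.log_pow]
          field_simp
          push_cast
          ring
  linarith

end Pool.Agent.Y825.WG
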