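import Pool.Agent.Y825.WG.Count

/-! Values of `D` for which Wiggin's map has a cycle above `D`, and the number of starting values
which do not descend. -/

set_option autoImplicit false

namespace Pool.Agent.Y825.WG

open Filter

/-- follow the orbit for `k` steps, check that it stays above `D` and ends in `c` -/
def chk (D c : ℕ) : ℕ → ℕ → Bool
  | 0, x => x == c
  | k + 1, x => Nat.ble D x && chk D c k (F D x)

theorem chk_spec {D c : ℕ} : ∀ (k x : ℕ), chk D c k x = true →
    (∀ i, i < k → D ≤ (F D)^[i] x) ∧ (F D)^[k] x = c := by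
  intro k
  induction k with
  | zero =>
    intro x h
    refine ⟨fun i hi => absurd hi (by omega), ?_⟩
    simpa [chk] using h
  | succ k ih =>
    intro x h
    rw [chk, Bool.and_eq_true] at h
    obtain ⟨h1, h2⟩ := h
    obtain ⟨h3, h4⟩ := ih _ h2
    refine ⟨?_, h4⟩
    intro i hi
    cases i with
    | zero => exact Nat.le_of_ble_eq_true h1
    | succ i =>
      rw [Function.iterate_succ_apply]
      exact h3 i (by omega)

/-- A number on a cycle above `D`. -/
theorem cycle {D c L : ℕ} (hL : 0 < L) (h : chk D c L c = true) :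
    (F D)^[L] c = c ∧ ∀ k, D ≤ (F D)^[k] c := by
  obtain ⟨h1, h2⟩ := chk_spec L c h
  refine ⟨h2, fun k => ?_⟩
  have hper : Function.IsPeriodicPt (F D) L c := h2
  have h3 : (F D)^[k % L] c = (F D)^[k] c := hper.iterate_mod_apply k
  rw [← h3]
  exact h1 _ (Nat.mod_lt _ hL)

/-- triples `(D, c, L)` such that `c` is on a cycle of `F_D` of length `L` above `D` -/
def cycles : List (ℕ × ℕ × ℕ) :=
  [(13, 147, 71), (14, 119, 79), (15, 2382, 85), (47, 9324, 367), (55, 2550, 447), (58, 69, 537),
   (62, 31105, 517), (82, 160, 773), (83, 105498, 739), (95, 41996, 871), (104, 8170, 973), (105,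
   591, 1003), (121, 2160, 1173), (132, 272925, 1295), (133, 796, 1329), (139, 14886, 1379), (143,
   3628, 1431), (168, 677, 1771), (198, 310, 2279), (216, 1074, 2373), (226, 372, 2647), (307,
   48272, 3525), (308, 178806, 3537), (346, 284172, 4053), (390, 479, 5089), (700, 22412, 9201),
   (1023, 20582, 14239), (1235, 16424, 17687), (1277, 31694, 18327)]

theorem cycles_chk : ∀ t ∈ cycles, 0 < t.2.2 ∧ 4 ≤ t.1 ∧ t.1 ≤ t.2.1 ∧
    chk t.1 t.2.1 t.2.2 t.2.1 = true := by
  decide +kernel

end Pool.Agent.Y825.WG
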