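import Pool.Agent.Y825.WG.Cycles

/-! If one number does not descend then many numbers do not descend. -/

set_option autoImplicit false

namespace Pool.Agent.Y825.WG

open Filter

theorem F_zero (D : ℕ) : F D 0 = 0 := by simp [F]

theorem back {D : ℕ} (hD : 4 ≤ D) : Back D (fun x => ¬ Desc D x) := by
  intro x h hx
  apply h
  obtain ⟨k, hk⟩ := hx
  cases k with
  | succ k => exact ⟨k, by rwa [Function.iterate_succ_apply] at hk⟩
  | zero =>
    have hx : x < D := hk
    rcases Nat.eq_zero_or_pos x with h0 | h0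
    · subst h0
      exact ⟨0, by rw [F_zero]; exact hk⟩
    · have hm : x % D = x := Nat.mod_eq_of_lt hx
      by_cases h1 : x = D - 1
      · refine ⟨2, ?_⟩
        have e1 : F D x = D * D := by
          unfold F
          rw [hm, if_neg (by omega), if_pos h1, h1]
          obtain ⟨d, rfl⟩ : ∃ d, D = d + 1 := ⟨D - 1, by omega⟩
          simp only [Nat.add_sub_cancel]
          ring
        rw [e1]
        show F D (F D (D * D)) < D
        rw [F_mul (by omega)]
        have : F D D = 1 := by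
          have := F_mul (D := D) (q := 1) (by omega)
          rwa [mul_one] at this
        rw [this]
        omega
      · refine ⟨1, ?_⟩
        have e1 : F D x = D * x := by
          unfold F
          rw [hm, if_neg (by omega), if_neg h1]
          have : (D + 1) * x = D * x + x := by ring
          omega
        rw [e1]
        show F D (D * x) < D
        rw [F_mul (by omega)]
        exact hx

theorem fwd {D x : ℕ} (h : ¬ Desc D x) : ¬ Desc D (F D x) := by
  rintro ⟨k, hk⟩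
  exact h ⟨k + 1, by rwa [Function.iterate_succ_apply]⟩

/-- strip the factors `D` -/
theorem strip {D : ℕ} (hD : 2 ≤ D) : ∀ x : ℕ, 1 ≤ x → ¬ Desc D x →
    ∃ y, 1 ≤ y ∧ ¬ Desc D y ∧ ¬ D ∣ y ∧ ∃ k, x = D ^ k * y := by
  intro x
  induction x using Nat.strong_induction_on with
  | _ x ih =>
    intro hx h
    by_cases hd : D ∣ x
    · obtain ⟨q, rfl⟩ := hd
      have hq : 1 ≤ q := by
        rcases Nat.eq_zero_or_pos q with h0 | h0
        · subst h0; simp at hx
        · exact h0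
      have hlt : q < D * q := by nlinarith
      have h2 := fwd h
      rw [F_mul (by omega)] at h2
      obtain ⟨y, h3, h4, h5, k, h6⟩ := ih q hlt hq h2
      exact ⟨y, h3, h4, h5, k + 1, by rw [pow_succ, h6]; ring⟩
    · exact ⟨x, hx, h, hd, 0, by simp⟩

theorem good_start {D : ℕ} (hD : 4 ≤ D) {n0 : ℕ} (hn0 : 1 ≤ n0) (h : ¬ Desc D n0) :
    ∃ c, 1 ≤ c ∧ Good D (fun x => ¬ Desc D x) c := by
  obtain ⟨x, hx1, hx2, hx3, -⟩ := strip (by omega) n0 hn0 h
  set q := x / D with hq
  set j := x % D with hj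
  have hxe : x = D * q + j := (Nat.div_add_mod x D).symm
  have hj0 : j ≠ 0 := fun h0 => hx3 (Nat.dvd_of_mod_eq_zero h0)
  have hjD : j < D := Nat.mod_lt _ (by omega)
  have h2 := fwd (fwd hx2)
  obtain ⟨y, hy, hyd⟩ : ∃ y, F D (F D x) = y ∧ ¬ (D + 1) ∣ y ∧ 1 ≤ y := by
    by_cases hc : j = D - 1
    · refine ⟨(D + 1) * q + D, ?_, ?_, by omega⟩
      · have e : F D x = D * ((D + 1) * q + D) := by
          unfold F
          rw [← hj, if_neg hj0, if_pos hc, hxe, hc]
          obtain ⟨d, rfl⟩ : ∃ d, D = d + 1 := ⟨D - 1, by omega⟩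
          simp only [Nat.add_sub_cancel]
          ring
        rw [e, F_mul (by omega)]
      · intro hdv
        rw [Nat.dvd_add_right (Nat.dvd_mul_right _ _)] at hdv
        have := Nat.le_of_dvd (by omega) hdv
        omega
    · refine ⟨(D + 1) * q + j, ?_, ?_, by omega⟩
      · have e : F D x = D * ((D + 1) * q + j) := by
          unfold F
          rw [← hj, if_neg hj0, if_neg hc]
          have e2 : (D + 1) * x = D * ((D + 1) * q + j) + j := by
            rw [hxe]; ring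
          rw [e2, Nat.add_sub_cancel]
        rw [e, F_mul (by omega)]
      · intro hdv
        rw [Nat.dvd_add_right (Nat.dvd_mul_right _ _)] at hdv
        have := Nat.le_of_dvd (by omega) hdv
        omega
  rw [hy] at h2
  obtain ⟨z, hz1, hz2, hz3, k, hk⟩ := strip (by omega) y hyd.2 h2
  refine ⟨z, hz1, hz2, fun hdv => hyd.1 ?_, hz3⟩
  rw [hk]
  exact hdv.mul_left _

/-- One number which does not descend gives many. -/
theorem many {D : ℕ} (hD : 4 ≤ D) {n0 : ℕ} (hn0 : 1 ≤ n0) (h : ¬ Desc D n0) :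
    ∃ a : ℝ, 0 < a ∧ ∀ᶠ N : ℕ in atTop, a * (N:ℝ) ^ (Real.log 2 / (4 * Real.log D)) ≤
      ({n : ℕ | 1 ≤ n ∧ n ≤ N ∧ ¬ Desc D n}.ncard : ℝ) := by
  obtain ⟨c, hc1, hc⟩ := good_start hD hn0 h
  obtain ⟨a, ha, hcount⟩ := count hD (back hD) hc hc1
  set α := Real.log 2 / (4 * Real.log D) with hα
  have hDR : (1:ℝ) < (D:ℝ) := by exact_mod_cast (by omega : 1 < D)
  have hα0 : 0 ≤ α := by
    have := Real.log_pos hDR
    have := Real.log_pos (show (1:ℝ) < 2 by norm_num)
    positivity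
  have hcR : (1:ℝ) ≤ c := by exact_mod_cast hc1
  refine ⟨a * (1 / (2 * c)) ^ α, by positivity, ?_⟩
  filter_upwards [eventually_ge_atTop c] with N hN
  have hNc : 1 ≤ N / c := by
    rw [Nat.le_div_iff_mul_le (by omega)]
    omega
  have h1 := hcount (N / c) hNc
  have hfin : {n : ℕ | 1 ≤ n ∧ n ≤ N ∧ ¬ Desc D n}.Finite :=
    (Set.finite_Icc 1 N).subset fun n hn => ⟨hn.1, hn.2.1⟩
  have hsub : {n : ℕ | 1 ≤ n ∧ n ≤ c * (N / c) ∧ ¬ Desc D n} ⊆
      {n : ℕ | 1 ≤ n ∧ n ≤ N ∧ ¬ Desc D n} := fun n hn =>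
    ⟨hn.1, hn.2.1.trans (Nat.mul_div_le N c), hn.2.2⟩
  have h2 : (({n : ℕ | 1 ≤ n ∧ n ≤ c * (N / c) ∧ ¬ Desc D n}.ncard : ℕ) : ℝ) ≤
      ({n : ℕ | 1 ≤ n ∧ n ≤ N ∧ ¬ Desc D n}.ncard : ℝ) := by
    exact_mod_cast Set.ncard_le_ncard hsub hfin
  have h3 : (1 / (2 * (c : ℝ))) * N ≤ ((N / c : ℕ) : ℝ) := by
    have h4 : N < (N / c + 1) * c := by
      have := Nat.lt_div_mul_add (a := N) (b := c) (by omega)
      nlinarith
    have h5 : (N : ℝ) < ((N / c : ℕ) + 1) * c := by exact_mod_cast h4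
    have h6 : (1 : ℝ) ≤ ((N / c : ℕ) : ℝ) := by exact_mod_cast hNc
    rw [one_div, inv_mul_le_iff₀ (by positivity)]
    nlinarith
  calc a * (1 / (2 * (c : ℝ))) ^ α * (N:ℝ) ^ α = a * ((1 / (2 * (c : ℝ))) * N) ^ α := by
        rw [Real.mul_rpow (by positivity) (by positivity), mul_assoc]
    _ ≤ a * (((N / c : ℕ) : ℝ)) ^ α := by
        apply mul_le_mul_of_nonneg_left _ ha.le
        exact Real.rpow_le_rpow (by positivity) h3 hα0
    _ ≤ _ := h1.trans h2

end Pool.Agent.Y825.WG
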